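import Mathlib
import Pool.Agent.H46.VT.Defs
import Pool.Agent.H46.VT.Tools

/-!
# ORC: relative computability by c.e. axioms
-/

namespace Pool.Agent.H36.VT

open _root_.VT Pool.Agent.H46.VT
open Nat.Partrec (Code)
open Nat.Partrec.Code Encodable Denumerable

/-- The initial segment of length `L` of the characteristic function of `A`. -/
noncomputable def seg (A : Set ℕ) (L : ℕ) : List Bool :=
  (List.range L).map (fun i => @decide (i ∈ A) (Classical.propDecidable _))

lemma seg_length (A : Set ℕ) (L : ℕ) : (seg A L).length = L := by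
  simp [seg]

lemma seg_get (A : Set ℕ) (L n : ℕ) (h : n < L) :
    (seg A L)[n]? = some (@decide (n ∈ A) (Classical.propDecidable _)) := by
  unfold seg
  rw [List.getElem?_map, List.getElem?_range h]
  rfl

lemma seg_get_none (A : Set ℕ) (L n : ℕ) (h : L ≤ n) : (seg A L)[n]? = none := by
  rw [List.getElem?_eq_none_iff, seg_length]
  exact h

/-- Relative computability through initial segments. -/
def Seg (A : Set ℕ) (f : ℕ →. ℕ) : Prop :=
  ∃ Φ : List Bool → ℕ →. ℕ, Partrec₂ Φ ∧
    (∀ n v L L', L ≤ L' → v ∈ Φ (seg A L) n → v ∈ Φ (seg A L') n) ∧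
    (∀ n v, v ∈ f n ↔ ∃ L, v ∈ Φ (seg A L) n)

lemma seg_partrec (A : Set ℕ) {f : ℕ →. ℕ} (hf : Nat.Partrec f) : Seg A f := by
  refine ⟨fun _ n => f n, ?_, ?_, ?_⟩
  · exact (Partrec.nat_iff.2 hf).comp Computable.snd
  · intro n v L L' _ h
    exact h
  · intro n v
    exact ⟨fun h => ⟨0, h⟩, fun ⟨_, h⟩ => h⟩

lemma seg_oracle (A : Set ℕ) : Seg A (chi A) := by
  refine ⟨fun σ n => ((σ[n]?.map (fun b => cond b 1 0) : Option ℕ) : Part ℕ), ?_, ?_, ?_⟩
  · have h1 : Computable (fun q : List Bool × ℕ => q.1[q.2]?) :=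
      Primrec.list_getElem?.to_comp.comp Computable.fst Computable.snd
    have h2 : Computable (fun q : List Bool × ℕ =>
        (q.1[q.2]?).map (fun b => cond b 1 0)) := by
      refine Computable.option_map h1 ?_
      exact (Computable.cond (Computable.snd : Computable (fun q : (List Bool × ℕ) × Bool => q.2))
        (Computable.const 1) (Computable.const 0))
    exact Computable.ofOption h2
  · intro n v L L' hL h
    simp only [Part.mem_coe] at h ⊢
    by_cases hn : n < L
    · rw [seg_get A L n hn] at h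
      rw [seg_get A L' n (by omega)]
      exact h
    · rw [seg_get_none A L n (by omega)] at h
      simp at h
  · intro n v
    simp only [Part.mem_coe]
    constructor
    · intro h
      refine ⟨n + 1, ?_⟩
      rw [seg_get A (n + 1) n (by omega)]
      unfold chi at h
      rw [Part.mem_some_iff] at h
      subst h
      by_cases hA : n ∈ A <;> simp [hA]
    · rintro ⟨L, h⟩
      by_cases hn : n < L
      · rw [seg_get A L n hn] at h
        unfold chi
        rw [Part.mem_some_iff]
        by_cases hA : n ∈ A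
        · simp [hA] at h ⊢
          omega
        · simp [hA] at h ⊢
          omega
      · rw [seg_get_none A L n (by omega)] at h
        simp at h

lemma seg_pair (A : Set ℕ) {f h : ℕ →. ℕ} (hf : Seg A f) (hh : Seg A h) :
    Seg A (fun n => (Nat.pair <$> f n <*> h n)) := by
  obtain ⟨Φ, p1, m1, e1⟩ := hf
  obtain ⟨Ψ, p2, m2, e2⟩ := hh
  refine ⟨fun σ n => (Φ σ n).bind fun a => (Ψ σ n).map fun b => Nat.pair a b, ?_, ?_, ?_⟩
  · have q2 : Partrec (fun q : (List Bool × ℕ) × ℕ => Ψ q.1.1 q.1.2) :=
      p2.comp (Computable.fst.comp Computable.fst) (Computable.snd.comp Computable.fst)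
    refine Partrec.bind p1 ?_
    exact Partrec.map q2 (Primrec₂.natPair.to_comp.comp
      (Computable.snd.comp Computable.fst) Computable.snd)
  · intro n v L L' hL hv
    simp only [Part.mem_bind_iff, Part.mem_map_iff] at hv ⊢
    obtain ⟨a, ha, b, hb, hab⟩ := hv
    exact ⟨a, m1 _ _ _ _ hL ha, b, m2 _ _ _ _ hL hb, hab⟩
  · intro n v
    simp only [Seq.seq, Part.map_eq_map, Part.bind_map, Part.mem_bind_iff, Part.mem_map_iff]
    constructor
    · rintro ⟨a, ha, b, hb, hab⟩
      obtain ⟨L1, h1⟩ := (e1 _ _).1 ha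
      obtain ⟨L2, h2⟩ := (e2 _ _).1 hb
      exact ⟨max L1 L2, a, m1 _ _ _ _ (le_max_left _ _) h1, b,
        m2 _ _ _ _ (le_max_right _ _) h2, hab⟩
    · rintro ⟨L, a, ha, b, hb, hab⟩
      exact ⟨a, (e1 _ _).2 ⟨L, ha⟩, b, (e2 _ _).2 ⟨L, hb⟩, hab⟩

lemma seg_comp (A : Set ℕ) {f h : ℕ →. ℕ} (hf : Seg A f) (hh : Seg A h) :
    Seg A (fun n => h n >>= f) := by
  obtain ⟨Φ, p1, m1, e1⟩ := hf
  obtain ⟨Ψ, p2, m2, e2⟩ := hh
  refine ⟨fun σ n => (Ψ σ n).bind fun a => Φ σ a, ?_, ?_, ?_⟩
  · exact Partrec.bind p2 (p1.comp (Computable.fst.comp Computable.fst) Computable.snd)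
  · intro n v L L' hL hv
    simp only [Part.mem_bind_iff] at hv ⊢
    obtain ⟨a, ha, hb⟩ := hv
    exact ⟨a, m2 _ _ _ _ hL ha, m1 _ _ _ _ hL hb⟩
  · intro n v
    simp only [Part.bind_eq_bind, Part.mem_bind_iff]
    constructor
    · rintro ⟨a, ha, hb⟩
      obtain ⟨L1, h1⟩ := (e2 _ _).1 ha
      obtain ⟨L2, h2⟩ := (e1 _ _).1 hb
      exact ⟨max L1 L2, a, m2 _ _ _ _ (le_max_left _ _) h1,
        m1 _ _ _ _ (le_max_right _ _) h2⟩
    · rintro ⟨L, a, ha, hb⟩
      exact ⟨a, (e2 _ _).2 ⟨L, ha⟩, (e1 _ _).2 ⟨L, hb⟩⟩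

lemma seg_prec (A : Set ℕ) {f h : ℕ →. ℕ} (hf : Seg A f) (hh : Seg A h) :
    Seg A (fun p =>
        let (a, n) := Nat.unpair p
        n.rec (f a) fun y IH => do
          let i ← IH
          h (Nat.pair a (Nat.pair y i))) := by
  obtain ⟨Φ, p1, m1, e1⟩ := hf
  obtain ⟨Ψ, p2, m2, e2⟩ := hh
  refine ⟨fun σ p => (Nat.rec (Φ σ p.unpair.1)
    (fun y IH => Part.bind IH fun i => Ψ σ (Nat.pair p.unpair.1 (Nat.pair y i))) p.unpair.2 :
      Part ℕ), ?_, ?_, ?_⟩
  · refine Partrec.nat_rec (f := fun q : List Bool × ℕ => q.2.unpair.2)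
      (g := fun q : List Bool × ℕ => Φ q.1 q.2.unpair.1)
      (h := fun (q : List Bool × ℕ) (r : ℕ × ℕ) =>
        Ψ q.1 (Nat.pair q.2.unpair.1 (Nat.pair r.1 r.2))) ?_ ?_ ?_
    · exact co_unpair2 Computable.snd
    · exact p1.comp Computable.fst (co_unpair1 Computable.snd)
    · refine p2.comp (Computable.fst.comp Computable.fst) ?_
      exact co_pair (co_unpair1 (Computable.snd.comp Computable.fst))
        (co_pair (Computable.fst.comp Computable.snd) (Computable.snd.comp Computable.snd))
  · intro p v L L' hL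
    simp only
    generalize p.unpair.1 = a
    generalize p.unpair.2 = n
    induction n generalizing v with
    | zero => exact m1 _ _ _ _ hL
    | succ n ih =>
      intro hv
      simp only [Part.mem_bind_iff] at hv ⊢
      obtain ⟨i, hi, hj⟩ := hv
      exact ⟨i, ih i hi, m2 _ _ _ _ hL hj⟩
  · intro p v
    simp only
    generalize p.unpair.1 = a
    generalize p.unpair.2 = n
    have mono : ∀ (n v L L' : ℕ), L ≤ L' →
        v ∈ (Nat.rec (Φ (seg A L) a)
          (fun y IH => Part.bind IH fun i => Ψ (seg A L) (Nat.pair a (Nat.pair y i))) n :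
            Part ℕ) →
        v ∈ (Nat.rec (Φ (seg A L') a)
          (fun y IH => Part.bind IH fun i => Ψ (seg A L') (Nat.pair a (Nat.pair y i))) n :
            Part ℕ) := by
      intro n v L L' hL
      induction n generalizing v with
      | zero => exact m1 _ _ _ _ hL
      | succ n ih =>
        intro hv
        simp only [Part.mem_bind_iff] at hv ⊢
        obtain ⟨i, hi, hj⟩ := hv
        exact ⟨i, ih i hi, m2 _ _ _ _ hL hj⟩
    induction n generalizing v with
    | zero => exact e1 _ _
    | succ n ih =>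
      simp only [Part.bind_eq_bind, Part.mem_bind_iff]
      constructor
      · rintro ⟨i, hi, hj⟩
        obtain ⟨L1, h1⟩ := (ih i).1 hi
        obtain ⟨L2, h2⟩ := (e2 _ _).1 hj
        exact ⟨max L1 L2, i, mono _ _ _ _ (le_max_left _ _) h1,
          m2 _ _ _ _ (le_max_right _ _) h2⟩
      · rintro ⟨L, i, hi, hj⟩
        exact ⟨i, (ih i).2 ⟨L, hi⟩, (e2 _ _).2 ⟨L, hj⟩⟩

lemma seg_rfind (A : Set ℕ) {f : ℕ →. ℕ} (hf : Seg A f) :
    Seg A (fun a => Nat.rfind fun n => (fun m => m = 0) <$> f (Nat.pair a n)) := by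
  classical
  obtain ⟨Φ, p1, m1, e1⟩ := hf
  have ht : ∀ (g : ℕ →. ℕ) (a n : ℕ),
      (true ∈ ((fun m => decide (m = 0)) <$> g (Nat.pair a n) : Part Bool) ↔
        0 ∈ g (Nat.pair a n)) := by
    intro g a n
    simp only [Part.map_eq_map, Part.mem_map_iff, decide_eq_true_eq]
    constructor
    · rintro ⟨b, hb, rfl⟩
      exact hb
    · intro h
      exact ⟨0, h, rfl⟩
  have hff : ∀ (g : ℕ →. ℕ) (a n : ℕ),
      (false ∈ ((fun m => decide (m = 0)) <$> g (Nat.pair a n) : Part Bool) ↔
        ∃ b, b ≠ 0 ∧ b ∈ g (Nat.pair a n)) := by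
    intro g a n
    simp only [Part.map_eq_map, Part.mem_map_iff, decide_eq_false_iff_not]
    constructor
    · rintro ⟨b, hb, h0⟩
      exact ⟨b, h0, hb⟩
    · rintro ⟨b, h0, hb⟩
      exact ⟨b, hb, h0⟩
  refine ⟨fun σ a => Nat.rfind fun n => (fun m => decide (m = 0)) <$> Φ σ (Nat.pair a n),
    ?_, ?_, ?_⟩
  · refine Partrec.rfind (p := fun (q : List Bool × ℕ) (n : ℕ) =>
      (fun m => decide (m = 0)) <$> Φ q.1 (Nat.pair q.2 n)) ?_
    have q1 : Partrec (fun q : (List Bool × ℕ) × ℕ => Φ q.1.1 (Nat.pair q.1.2 q.2)) :=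
      p1.comp (Computable.fst.comp Computable.fst)
        (co_pair (Computable.snd.comp Computable.fst) Computable.snd)
    refine Partrec.map q1 ?_
    have := cp_dec (cp_eq (α := ((List Bool × ℕ) × ℕ) × ℕ) (β := ℕ) Computable.snd
      (Computable.const 0))
    refine this.of_eq ?_
    intro q
    simp
  · intro a v L L' hL hv
    rw [Nat.mem_rfind] at hv ⊢
    refine ⟨(ht _ _ _).2 (m1 _ _ _ _ hL ((ht _ _ _).1 hv.1)), fun {m} hm => ?_⟩
    obtain ⟨b, hb, hb'⟩ := (hff _ _ _).1 (hv.2 hm)
    exact (hff _ _ _).2 ⟨b, hb, m1 _ _ _ _ hL hb'⟩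
  · intro a v
    have hrw : ∀ g : ℕ →. ℕ, (Nat.rfind fun n => (fun m => m = 0) <$> g (Nat.pair a n)) =
        Nat.rfind fun n => (fun m => decide (m = 0)) <$> g (Nat.pair a n) := fun g => rfl
    constructor
    · intro hv
      rw [Nat.mem_rfind] at hv
      obtain ⟨L0, h0⟩ := (e1 _ _).1 ((ht f _ _).1 hv.1)
      have h2 : ∀ m, ∃ L, m < v → ∃ b, b ≠ 0 ∧ b ∈ Φ (seg A L) (Nat.pair a m) := by
        intro m
        by_cases hm : m < v
        · obtain ⟨b, hb, hb'⟩ := (hff f _ _).1 (hv.2 hm)
          obtain ⟨L, hL⟩ := (e1 _ _).1 hb'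
          exact ⟨L, fun _ => ⟨b, hb, hL⟩⟩
        · exact ⟨0, fun h => absurd h hm⟩
      choose L hL using h2
      refine ⟨max L0 ((Finset.range v).sup L), ?_⟩
      rw [Nat.mem_rfind]
      refine ⟨(ht _ _ _).2 (m1 _ _ _ _ (le_max_left _ _) h0), fun {m} hm => ?_⟩
      obtain ⟨b, hb, hb'⟩ := hL m hm
      refine (hff _ _ _).2 ⟨b, hb, m1 _ _ _ _ ?_ hb'⟩
      exact le_trans (Finset.le_sup (f := L) (Finset.mem_range.2 hm)) (le_max_right _ _)
    · rintro ⟨L, hv⟩
      rw [Nat.mem_rfind] at hv ⊢
      refine ⟨(ht f _ _).2 ((e1 _ _).2 ⟨L, (ht _ _ _).1 hv.1⟩), fun {m} hm => ?_⟩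
      obtain ⟨b, hb, hb'⟩ := (hff _ _ _).1 (hv.2 hm)
      exact (hff f _ _).2 ⟨b, hb, (e1 _ _).2 ⟨L, hb'⟩⟩

lemma seg_all (A : Set ℕ) {f : ℕ →. ℕ} (hf : Nat.RecursiveIn {chi A} f) : Seg A f := by
  induction hf with
  | zero => exact seg_partrec A Nat.Partrec.zero
  | succ => exact seg_partrec A Nat.Partrec.succ
  | left => exact seg_partrec A Nat.Partrec.left
  | right => exact seg_partrec A Nat.Partrec.right
  | oracle g hg =>
    rw [Set.mem_singleton_iff] at hg
    subst hg
    exact seg_oracle A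
  | pair _ _ h1 h2 => exact seg_pair A h1 h2
  | comp _ _ h1 h2 => exact seg_comp A h1 h2
  | prec _ _ h1 h2 => exact seg_prec A h1 h2
  | rfind _ h1 => exact seg_rfind A h1

/-- The existential quantification of a computable predicate is c.e. -/
lemma re_exists {α : Type} [Primcodable α] {P : α → ℕ → Prop}
    (hP : ComputablePred (fun q : α × ℕ => P q.1 q.2)) : REPred (fun a => ∃ w, P a w) := by
  classical
  have h1 : Partrec (fun a : α => Nat.rfind fun n => Part.some (decide (P a n))) := by
    apply Partrec.rfind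
    have : Computable (fun q : α × ℕ => decide (P q.1 q.2)) := by
      refine (cp_dec hP).of_eq ?_
      intro q
      simp
    exact this.partrec
  refine h1.dom_re.of_eq ?_
  intro a
  rw [Nat.rfind_dom]
  constructor
  · rintro ⟨n, hn, _⟩
    exact ⟨n, by simpa using hn⟩
  · rintro ⟨n, hn⟩
    exact ⟨n, by simpa using hn, fun _ => trivial⟩

/-- The positions of `b` in `σ`. -/
def posn (b : Bool) (σ : List Bool) : List ℕ :=
  ((List.range σ.length).map (fun i => if σ[i]? = some b then [i] else [])).flatten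

lemma mem_posn (b : Bool) (σ : List Bool) (i : ℕ) : i ∈ posn b σ ↔ σ[i]? = some b := by
  unfold posn
  simp only [List.mem_flatten, List.mem_map, List.mem_range]
  constructor
  · rintro ⟨l, ⟨j, hj, rfl⟩, hi⟩
    by_cases h : σ[j]? = some b
    · rw [if_pos h, List.mem_singleton] at hi
      subst hi
      exact h
    · rw [if_neg h] at hi
      simp at hi
  · intro h
    refine ⟨[i], ⟨i, ?_, by rw [if_pos h]⟩, by simp⟩
    by_contra hc
    rw [List.getElem?_eq_none_iff.2 (by omega)] at h
    cases h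

lemma co_posn (b : Bool) : Computable (posn b) := by
  unfold posn
  have h1 : Computable (fun σ : List Bool => (List.range σ.length).map
      (fun i => if σ[i]? = some b then [i] else [])) := by
    refine co_range_map (f := fun (σ : List Bool) i => if σ[i]? = some b then [i] else [])
      ?_ Computable.list_length
    refine co_ite ?_ ?_ (Computable.const []) _
    · exact cp_eq (Primrec.list_getElem?.to_comp.comp Computable.fst Computable.snd)
        (Computable.const _)
    · exact Computable.list_cons.comp Computable.snd (Computable.const [])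
  exact (Primrec.list_flatten.to_comp).comp h1

/-- decoding of a list of truth values -/
def dl (n : ℕ) : List Bool := (decode (α := List Bool) n).getD []

lemma dl_encode (σ : List Bool) : dl (encode σ) = σ := by
  unfold dl
  rw [encodek]
  rfl

lemma co_dl : Computable dl := by
  unfold dl
  exact Computable.option_getD Computable.decode (Computable.const [])

lemma co_evaln {α : Type} [Primcodable α] {s x : α → ℕ} {c : α → Code} (hs : Computable s)
    (hc : Computable c) (hx : Computable x) : Computable (fun a => evaln (s a) (c a) (x a)) := by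
  have h1 : Computable (fun q : (ℕ × Code) × ℕ => evaln q.1.1 q.1.2 q.2) :=
    primrec_evaln.to_comp
  have h2 : Computable (fun a => ((s a, c a), x a)) := (hs.pair hc).pair hx
  exact h1.comp h2

theorem pf_ORC : TARGET_ORC := by
  classical
  intro A f hf
  obtain ⟨Φ, p1, m1, e1⟩ := seg_all A hf
  -- a code for `Φ`
  have hP : Partrec (fun q : List Bool × ℕ => Φ q.1 q.2) := p1
  have hN : Nat.Partrec (fun n => Part.bind
      ((decode (α := List Bool × ℕ) n : Option (List Bool × ℕ)) : Part (List Bool × ℕ))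
      fun a => (Φ a.1 a.2).map encode) := hP
  obtain ⟨c, hc⟩ := exists_code.1 hN
  have hmem : ∀ σ n v, v ∈ Φ σ n ↔ ∃ k, v ∈ evaln k c (encode (σ, n)) := by
    intro σ n v
    rw [← evaln_complete, hc]
    simp only [encodek, Part.coe_some, Part.bind_some, Part.mem_map_iff, encode_nat]
    constructor
    · intro h
      exact ⟨v, h, rfl⟩
    · rintro ⟨a, ha, rfl⟩
      exact ha
  refine ⟨fun n v P N => ∃ w : ℕ, v ∈ evaln w.unpair.1 c
      (encode (dl w.unpair.2, n)) ∧ P = posn true (dl w.unpair.2) ∧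
      N = posn false (dl w.unpair.2), ?_, ?_⟩
  · apply re_exists (P := fun (q : ℕ × ℕ × List ℕ × List ℕ) (w : ℕ) =>
      q.2.1 ∈ evaln w.unpair.1 c (encode (dl w.unpair.2, q.1)) ∧
      q.2.2.1 = posn true (dl w.unpair.2) ∧
      q.2.2.2 = posn false (dl w.unpair.2))
    have hσ : Computable (fun q : (ℕ × ℕ × List ℕ × List ℕ) × ℕ =>
        dl q.2.unpair.2) :=
      co_dl.comp (co_unpair2 Computable.snd)
    refine cp_and ?_ (cp_and ?_ ?_)
    · have a1 : Computable (fun q : (ℕ × ℕ × List ℕ × List ℕ) × ℕ => q.2.unpair.1) :=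
        co_unpair1 Computable.snd
      have a2 : Computable (fun q : (ℕ × ℕ × List ℕ × List ℕ) × ℕ =>
          encode (dl q.2.unpair.2, q.1.1)) :=
        Computable.encode.comp (hσ.pair (Computable.fst.comp Computable.fst))
      have h2 : Computable (fun q : (ℕ × ℕ × List ℕ × List ℕ) × ℕ =>
          evaln q.2.unpair.1 c (encode (dl q.2.unpair.2, q.1.1))) :=
        co_evaln a1 (Computable.const c) a2
      have h4 : Computable (fun q : (ℕ × ℕ × List ℕ × List ℕ) × ℕ => some q.1.2.1) :=
        Computable.option_some.comp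
          (Computable.fst.comp (Computable.snd.comp Computable.fst))
      exact cp_eq h2 h4
    · exact cp_eq (Computable.fst.comp (Computable.snd.comp
        (Computable.snd.comp Computable.fst))) ((co_posn true).comp hσ)
    · exact cp_eq (Computable.snd.comp (Computable.snd.comp
        (Computable.snd.comp Computable.fst))) ((co_posn false).comp hσ)
  · intro n v
    rw [e1]
    constructor
    · rintro ⟨L, hL⟩
      obtain ⟨k, hk⟩ := (hmem _ _ _).1 hL
      refine ⟨posn true (seg A L), posn false (seg A L),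
        ⟨Nat.pair k (encode (seg A L)), ?_, ?_, ?_⟩, ?_, ?_⟩
      · simp only [Nat.unpair_pair, dl_encode]
        exact hk
      · simp only [Nat.unpair_pair, dl_encode]
      · simp only [Nat.unpair_pair, dl_encode]
      · intro x hx
        rw [mem_posn] at hx
        by_cases hxL : x < L
        · rw [seg_get A L x hxL] at hx
          simpa using hx
        · rw [seg_get_none A L x (by omega)] at hx
          cases hx
      · intro x hx
        rw [mem_posn] at hx
        by_cases hxL : x < L
        · rw [seg_get A L x hxL] at hx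
          simpa using hx
        · rw [seg_get_none A L x (by omega)] at hx
          cases hx
    · rintro ⟨P, N, ⟨w, hw, rfl, rfl⟩, hp, hn⟩
      have hσ : dl w.unpair.2 = seg A (dl w.unpair.2).length := by
        generalize dl w.unpair.2 = σ at hp hn ⊢
        apply List.ext_getElem?
        intro i
        by_cases hi : i < σ.length
        · rw [seg_get A _ i hi]
          have h1 : σ[i]? = some (σ[i]) := List.getElem?_eq_getElem hi
          rw [h1]
          congr 1
          cases hb : σ[i] with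
          | true =>
            have := hp i ((mem_posn _ _ _).2 (by rw [h1, hb]))
            simp [this]
          | false =>
            have := hn i ((mem_posn _ _ _).2 (by rw [h1, hb]))
            simp [this]
        · rw [seg_get_none A _ i (by omega)]
          exact List.getElem?_eq_none_iff.2 (by omega)
      refine ⟨(dl w.unpair.2).length, ?_⟩
      rw [← hσ]
      exact (hmem _ _ _).2 ⟨_, hw⟩

end Pool.Agent.H36.VT
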