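import Mathlib
import Pool.Agent.H46.VT.Defs
import Pool.Agent.H46.VT.Tools
import Pool.Agent.H46.VT.Red

/-!
# PL: progress
-/

namespace Pool.Agent.H36.VT

open _root_.VT Pool.Agent.H46.VT Filter
open Nat.Partrec (Code)
open Nat.Partrec.Code Encodable Denumerable

lemma cur_lt {x i k : ℕ} (h : k < mX x) : cur x i k = 0 := by
  unfold cur
  rw [if_pos h]

lemma cur_ge {x i k : ℕ} (h : mX x ≤ k) : cur x i k = Nat.pair (mX x) i + 1 := by
  unfold cur
  rw [if_neg (by omega)]

lemma cur_ge_ne {x i k : ℕ} (h : mX x ≤ k) : cur x i k ≠ 0 := by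
  rw [cur_ge h]
  omega

lemma lm_cur {x i k : ℕ} (h : mX x ≤ k) : lm (cur x i k) = mX x := by
  rw [cur_ge h]
  unfold lm
  rw [Nat.add_sub_cancel, Nat.unpair_pair]

lemma li_cur {x i k : ℕ} (h : mX x ≤ k) : li (cur x i k) = i := by
  rw [cur_ge h]
  unfold li
  rw [Nat.add_sub_cancel, Nat.unpair_pair]

lemma or_mono (k x : ℕ) : ∀ t t', t ≤ t' → (Wst (rs k) t x ∨ Wst (rs' k) t x) →
    (Wst (rs k) t' x ∨ Wst (rs' k) t' x) := by
  rintro t t' htt (h | h)
  · exact Or.inl (wst_mono htt h)
  · exact Or.inr (wst_mono htt h)

lemma or_of_phi {ph : ℕ → ℕ → ℕ × ℕ} {k x t : ℕ} (hphi : phi ph k x t)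
    (hC : Cin ph (rl k) t x) : Wst (rs k) t x ∨ Wst (rs' k) t x := by
  rcases Classical.em (Wst (rs' k) t x) with h | h
  · exact Or.inr h
  · exact Or.inl ((hphi.1 hC).2 h)

theorem pf_PL (hRA : TARGET_RA) (hLF : TARGET_LF) : TARGET_PL := by
  classical
  intro ph hr x s hlen hc0 hg hps
  obtain ⟨r1, -, -, -, -, -, -, -, -, r10, -, -, -⟩ := hRA ph hr
  obtain ⟨l1, l2, l3, -⟩ := hLF ph hr
  by_contra hcon
  push Not at hcon
  obtain ⟨i, c, hic⟩ : ∃ i c, ph s x = (i, c) := ⟨_, _, rfl⟩
  have hph : ∀ t, s ≤ t → ph t x = (i, c) := fun t ht => (hcon t ht).trans hic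
  have hcle : c ≤ LX x + 4 := by
    have := r1 s x
    rw [hic] at this
    exact this
  rw [hic] at hc0 hg hps
  simp only at hc0 hg hps
  have hmL : mX x ≤ LX x := by unfold LX; omega
  -- monotone consequences of `phi` hold eventually
  have hEv : ∀ k, k < LX x → k < rr x c → gX x k = 0 → ∀ P : ℕ → Prop,
      (∀ t, s ≤ t → phi ph k x t → P t) → (∀ t t', t ≤ t' → P t → P t') →
      ∀ᶠ t in atTop, P t := by
    intro k hk hkr hgk P h1 h2
    have hInf : Inf ph k := (l2 k).1 (by rw [← hg k hk hkr]; exact hgk)
    obtain ⟨t, ht, hphi⟩ := l1 k hInf x s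
    filter_upwards [eventually_ge_atTop t] with t' ht'
    exact h2 t t' ht' (h1 t (by omega) hphi)
  -- the guard holds eventually
  have hG : ∀ᶠ t in atTop, Guard ph t x := by
    have h1 : ∀ᶠ t in atTop, ∀ k ∈ Finset.range (LX x), k < rr x c →
        (gX x k = 0 ∧ Big ph k t x) ∨ (gX x k ≠ 0 ∧ Eqm ph k t (gX x k - 1)) := by
      rw [eventually_all_finset]
      intro k hk
      have hk' : k < LX x := Finset.mem_range.1 hk
      by_cases hkr : k < rr x c
      · by_cases hgk : gX x k = 0
        · have hInf : Inf ph k := (l2 k).1 (by rw [← hg k hk' hkr]; exact hgk)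
          obtain ⟨t, ht⟩ := hInf x
          filter_upwards [eventually_ge_atTop t] with t' ht' _
          exact Or.inl ⟨hgk, r10 _ _ _ _ _ ht' le_rfl ht⟩
        · obtain ⟨b, hb⟩ : ∃ b, gX x k = b + 1 := ⟨gX x k - 1, by omega⟩
          have htv : tv ph k = b + 1 := by rw [← hg k hk' hkr]; exact hb
          obtain ⟨h2, h3⟩ := l3 k b htv
          rcases Nat.eq_zero_or_pos b with h0 | h0
          · refine Eventually.of_forall fun t _ => Or.inr ⟨hgk, ?_, ?_⟩
            · rw [hb, Nat.add_sub_cancel]
              exact h2 t
            · left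
              rw [hb, h0]
          · obtain ⟨t, ht⟩ := h3 (b - 1) (by omega)
            filter_upwards [eventually_ge_atTop t] with t' ht' _
            refine Or.inr ⟨hgk, ?_, ?_⟩
            · rw [hb, Nat.add_sub_cancel]
              exact h2 t'
            · right
              rw [hb, Nat.add_sub_cancel]
              exact r10 _ _ _ _ _ ht' le_rfl ht
      · exact Eventually.of_forall fun t h => absurd h hkr
    filter_upwards [h1, eventually_ge_atTop s] with t ht hst
    refine ⟨hlen, fun k hk hkr => ht k (Finset.mem_range.2 hk) ?_⟩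
    rw [hph t hst] at hkr
    exact hkr
  -- the move condition holds frequently
  have hM : ∃ᶠ t in atTop, MvC ph t x := by
    by_cases hc4 : c = LX x + 4
    · -- first case
      apply Eventually.frequently
      obtain ⟨s1, hs1⟩ := hps hc4
      have h1 : ∀ᶠ t in atTop, ∀ k ∈ Finset.range (LX x), mX x ≤ k → rl k = cur x i k →
          gX x k = 0 → Wst (rt k) t x := by
        rw [eventually_all_finset]
        intro k hk
        have hk' : k < LX x := Finset.mem_range.1 hk
        by_cases hcd : mX x ≤ k ∧ rl k = cur x i k ∧ gX x k = 0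
        · obtain ⟨hmk, hrl, hgk⟩ := hcd
          have hrr : k < rr x c := by
            unfold rr
            split_ifs <;> omega
          have h2 := hEv k hk' hrr hgk (fun t => Wst (rt k) t x) (fun t ht hphi => by
            refine hphi.2.2.2 ?_ ?_
            · right
              rw [hrl]
              refine ⟨cur_ge_ne hmk, (lm_cur hmk).symm, Or.inl ?_⟩
              rw [li_cur hmk, hph t ht]
            · unfold Cin
              rw [hrl, li_cur hmk, lm_cur hmk, hph t ht]
              have := cur_ge_ne (i := i) hmk
              simp only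
              omega) (fun t t' htt h => wst_mono htt h)
          filter_upwards [h2] with t ht _ _ _
          exact ht
        · refine Eventually.of_forall fun t a1 a2 a3 => absurd ⟨a1, a2, a3⟩ hcd
      filter_upwards [h1, eventually_ge_atTop s, eventually_ge_atTop s1] with t ht hst hst1
      left
      rw [hph t hst]
      exact ⟨hc4, hs1 t hst1, fun k hk hmk hrl hgk => ht k (Finset.mem_range.2 hk) hmk hrl hgk⟩
    by_cases hc3 : c = LX x + 3
    · apply Eventually.frequently
      have h1 : ∀ᶠ t in atTop, ∀ k ∈ Finset.range (LX x), mX x ≤ k → rl k = cur x i k →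
          gX x k = 0 → (Wst (rs k) t x ∨ Wst (rs' k) t x) := by
        rw [eventually_all_finset]
        intro k hk
        have hk' : k < LX x := Finset.mem_range.1 hk
        by_cases hcd : mX x ≤ k ∧ rl k = cur x i k ∧ gX x k = 0
        · obtain ⟨hmk, hrl, hgk⟩ := hcd
          have hrr : k < rr x c := by
            unfold rr
            split_ifs <;> omega
          have h2 := hEv k hk' hrr hgk (fun t => Wst (rs k) t x ∨ Wst (rs' k) t x)
            (fun t ht hphi => by
              have hC : Cin ph (rl k) t x := by
                right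
                rw [hrl]
                refine ⟨cur_ge_ne hmk, (lm_cur hmk).symm, Or.inr (Or.inl ?_)⟩
                rw [li_cur hmk, hph t ht]
                exact ⟨rfl, hc3.le⟩
              exact or_of_phi hphi hC) (or_mono k x)
          filter_upwards [h2] with t ht _ _ _
          exact ht
        · refine Eventually.of_forall fun t a1 a2 a3 => absurd ⟨a1, a2, a3⟩ hcd
      filter_upwards [h1, eventually_ge_atTop s] with t ht hst
      right; left
      rw [hph t hst]
      exact ⟨hc3, fun k hk hmk hrl hgk => ht k (Finset.mem_range.2 hk) hmk hrl hgk⟩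
    by_cases hm2 : c = mX x + 2
    · apply Eventually.frequently
      have h1 : ∀ᶠ t in atTop, ∀ k ∈ Finset.range (mX x), rl k = 0 →
          gX x k = 0 → Wst (rt k) t x := by
        rw [eventually_all_finset]
        intro k hk
        have hk' : k < mX x := Finset.mem_range.1 hk
        by_cases hcd : rl k = 0 ∧ gX x k = 0
        · obtain ⟨hrl, hgk⟩ := hcd
          have hrr : k < rr x c := by
            unfold rr
            split_ifs <;> omega
          have h2 := hEv k (by omega) hrr hgk (fun t => Wst (rt k) t x) (fun t ht hphi => by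
            refine hphi.2.2.2 (Or.inl hrl) ?_
            unfold Cin
            rw [hrl, hph t ht]
            simp only
            omega) (fun t t' htt h => wst_mono htt h)
          filter_upwards [h2] with t ht _ _
          exact ht
        · refine Eventually.of_forall fun t a1 a2 => absurd ⟨a1, a2⟩ hcd
      filter_upwards [h1, eventually_ge_atTop s] with t ht hst
      right; right; left
      rw [hph t hst]
      exact ⟨hm2, Or.inr fun k hk hrl hgk => ht k (Finset.mem_range.2 hk) hrl hgk⟩
    by_cases hm1 : c = mX x + 1
    · apply Eventually.frequently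
      have h1 : ∀ᶠ t in atTop, ∀ k ∈ Finset.range (mX x), rl k = 0 →
          gX x k = 0 → (Wst (rs k) t x ∨ Wst (rs' k) t x) := by
        rw [eventually_all_finset]
        intro k hk
        have hk' : k < mX x := Finset.mem_range.1 hk
        by_cases hcd : rl k = 0 ∧ gX x k = 0
        · obtain ⟨hrl, hgk⟩ := hcd
          have hrr : k < rr x c := by
            unfold rr
            split_ifs <;> omega
          have h2 := hEv k (by omega) hrr hgk (fun t => Wst (rs k) t x ∨ Wst (rs' k) t x)
            (fun t ht hphi => by
              have hC : Cin ph (rl k) t x := by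
                left
                rw [hph t ht]
                exact ⟨hrl, hm1.le⟩
              exact or_of_phi hphi hC) (or_mono k x)
          filter_upwards [h2] with t ht _ _
          exact ht
        · refine Eventually.of_forall fun t a1 a2 => absurd ⟨a1, a2⟩ hcd
      filter_upwards [h1, eventually_ge_atTop s] with t ht hst
      right; right; right; left
      rw [hph t hst]
      exact ⟨hm1, fun k hk hrl hgk => ht k (Finset.mem_range.2 hk) hrl hgk⟩
    -- the pointer is at a requirement
    obtain ⟨k, hk, hkp, hkr⟩ : ∃ k, k < LX x ∧ c = ptr x k ∧ k < rr x c := by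
      by_cases hcm : c ≤ mX x
      · refine ⟨c - 1, by omega, ?_, ?_⟩
        · unfold ptr
          split_ifs <;> omega
        · unfold rr
          split_ifs
          omega
      · refine ⟨c - 3, by omega, ?_, ?_⟩
        · unfold ptr
          split_ifs <;> omega
        · unfold rr
          split_ifs <;> omega
    intro hev
    have hev2 : ∀ᶠ t in atTop, AnnAt ph t x k ∧ ¬ Wst (rb k) t x := by
      filter_upwards [hev, eventually_ge_atTop s] with t ht hst
      by_contra hcc
      apply ht
      right; right; right; right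
      refine ⟨k, hk, ?_, hcc⟩
      rw [hph t hst]
      exact hkp
    obtain ⟨t0, ht0⟩ := eventually_atTop.1 hev2
    have ha0 := (ht0 (max t0 s) (le_max_left _ _)).1
    have hrl : rl k = cur x i k := by
      have := ha0.2.2.1.1
      rw [hph _ (le_max_right _ _)] at this
      exact this
    have hgk : gX x k = 0 := ha0.2.2.1.2.1
    have hInf : Inf ph k := (l2 k).1 (by rw [← hg k hk hkr]; exact hgk)
    obtain ⟨t, ht, hphi⟩ := l1 k hInf x (max t0 s)
    have ht' := ht0 t (le_trans (le_max_left _ _) ht.le)
    have hst : s ≤ t := le_trans (le_max_right _ _) ht.le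
    have hA : ¬ Ain ph (rl k) t x := by
      unfold Ain
      rw [hph t hst, hrl]
      rintro (⟨_, h⟩ | ⟨h1, _, h2⟩)
      · exact hc0 h
      · rcases h2 with h2 | h2
        · by_cases hkm : k < mX x
          · exact h1 (cur_lt hkm)
          · rw [li_cur (by omega)] at h2
            exact absurd h2 (lt_irrefl _)
        · exact hc0 h2
    have hD : Dst ph (rl k) (rb k) t x := ⟨max t0 s, ht, k, hk, ha0, rfl, rfl⟩
    exact ht'.2 ((hphi.2.2.1 ht'.1.2.2.1.2.2 hA).2 hD)
  -- conclusion
  obtain ⟨t, hMt, hGt, hst⟩ := (hM.and_eventually (hG.and (eventually_ge_atTop s))).exists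
  have h1 : ph (t + 1) x = nxt ph t x := hr.2 t x
  rw [hph (t + 1) (by omega)] at h1
  unfold nxt at h1
  rw [if_pos ⟨hGt, hMt⟩, hph t hst] at h1
  split_ifs at h1
  · have := congrArg Prod.fst h1
    simp at this
  · have := congrArg Prod.snd h1
    simp at this
    omega

end Pool.Agent.H36.VT
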