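import Mathlib
import Pool.Agent.H46.VT.Defs
import Pool.Agent.H46.VT.Tools
import Pool.Agent.H46.VT.Red

/-!
# PRO: complete sets are almost prompt
-/

namespace Pool.Agent.H36.VT

open _root_.VT Pool.Agent.H46.VT Filter
open Nat.Partrec (Code)
open Nat.Partrec.Code Encodable Denumerable

/-- A c.e. predicate has an index. -/
lemma re_code {α : Type} [Primcodable α] {p : α → Prop} (h : REPred p) :
    ∃ c : Code, ∀ a, p a ↔ ∃ s, Wst c s (encode a) := by
  unfold REPred at h
  have h1 : Partrec (fun a : α => (Part.assert (p a) fun _ => Part.some ()).map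
      (fun _ => (0 : ℕ))) := h.map (Computable.const (0 : ℕ)).to₂
  have hN : Nat.Partrec (fun n => Part.bind
      ((decode (α := α) n : Option α) : Part α)
      fun a => (((Part.assert (p a) fun _ => Part.some ()).map
        (fun _ => (0 : ℕ))) : Part ℕ).map encode) := h1
  obtain ⟨c, hc⟩ := exists_code.1 hN
  refine ⟨c, fun a => ?_⟩
  have h2 : (∃ s, Wst c s (encode a)) ↔ (eval c (encode a)).Dom := by
    rw [← mem_W_iff]
    rfl
  rw [h2, hc]
  simp [encodek, Part.assert]

lemma cp_forall_mem {α : Type} [Primcodable α] {R : α → ℕ → Prop} {l : α → List ℕ}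
    (hR : ComputablePred (fun q : α × ℕ => R q.1 q.2)) (hl : Computable l) :
    ComputablePred (fun a => ∀ x ∈ l a, R a x) := by
  have h1 : ComputablePred (fun a => ∀ j < (l a).length, R a ((l a).getD j 0)) := by
    refine cp_forall_lt (p := fun a j => R a ((l a).getD j 0)) ?_ (Computable.list_length.comp hl)
    exact cp_comp (p := fun q : α × ℕ => R q.1 q.2)
      (f := fun q : α × ℕ => (q.1, (l q.1).getD q.2 0)) hR
      (Computable.fst.pair (co_getD 0 (hl.comp Computable.fst) Computable.snd))
  refine h1.of_eq ?_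
  intro a
  constructor
  · intro h x hx
    obtain ⟨j, hj, rfl⟩ := List.mem_iff_getElem.1 hx
    have := h j hj
    rwa [List.getD_eq_getElem _ _ hj] at this
  · intro h j hj
    rw [List.getD_eq_getElem _ _ hj]
    exact h _ (List.getElem_mem hj)

/-- first list of an axiom -/
def aP (ax : ℕ) : List ℕ := ofNat (List ℕ) ax.unpair.1
/-- second list of an axiom -/
def aN (ax : ℕ) : List ℕ := ofNat (List ℕ) ax.unpair.2

lemma co_aP {α : Type} [Primcodable α] {f : α → ℕ} (hf : Computable f) :
    Computable (fun a => aP (f a)) := (Computable.ofNat (List ℕ)).comp (co_unpair1 hf)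

lemma co_aN {α : Type} [Primcodable α] {f : α → ℕ} (hf : Computable f) :
    Computable (fun a => aN (f a)) := (Computable.ofNat (List ℕ)).comp (co_unpair2 hf)

/-- the query -/
def qq (r : Code) (v : ℕ) : ℕ := encode (Code.comp r (Code.const v))

lemma co_qq {α : Type} [Primcodable α] {f : α → Code} {g : α → ℕ} (hf : Computable f)
    (hg : Computable g) : Computable (fun a => qq (f a) (g a)) := by
  unfold qq
  exact Computable.encode.comp (primrec₂_comp.to_comp.comp hf (primrec_const.to_comp.comp hg))

lemma qq_K (r : Code) (v : ℕ) : qq r v ∈ K ↔ v ∈ W r := by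
  unfold qq K
  rw [mem_W_iff, Set.mem_ofPred_eq, ofNat_encode]
  simp only [eval, Part.bind_eq_bind, eval_const, Part.bind_some]

/-- the condition -/
def Cond (c : Code) (E : ℕ → List ℕ) (r : Code) (v s ax : ℕ) : Prop :=
  ax ≤ s ∧ v ≤ s ∧ Wst c s (encode ((qq r v, 0, aP ax, aN ax) : ℕ × ℕ × List ℕ × List ℕ)) ∧
    (∀ x ∈ aP ax, x ∈ E s) ∧ (∀ x ∈ aN ax, x ∉ E s) ∧
    ∀ x ∈ aN ax, presSt (ofNat (List Code) v) s x

lemma cp_Cond {α : Type} [Primcodable α] (hPS : TARGET_PS) (c : Code) {E : ℕ → List ℕ}
    (hE : Computable E) {r : α → Code} {v s ax : α → ℕ} (hr : Computable r) (hv : Computable v)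
    (hs : Computable s) (hax : Computable ax) :
    ComputablePred (fun a => Cond c E (r a) (v a) (s a) (ax a)) := by
  unfold Cond
  refine cp_and (cp_le hax hs) (cp_and (cp_le hv hs) (cp_and ?_ (cp_and ?_ (cp_and ?_ ?_))))
  · refine cp_wst (Computable.const c) hs ?_
    have h1 : Computable (fun a => ((qq (r a) (v a), 0, aP (ax a), aN (ax a)) :
        ℕ × ℕ × List ℕ × List ℕ)) :=
      (co_qq hr hv).pair ((Computable.const 0).pair ((co_aP hax).pair (co_aN hax)))
    exact Computable.encode.comp h1
  · refine cp_forall_mem (R := fun a x => x ∈ E (s a)) ?_ (co_aP hax)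
    exact cp_mem (hE.comp (hs.comp Computable.fst)) Computable.snd
  · refine cp_forall_mem (R := fun a x => x ∉ E (s a)) ?_ (co_aN hax)
    exact cp_not (cp_mem (hE.comp (hs.comp Computable.fst)) Computable.snd)
  · refine cp_forall_mem (R := fun a x => presSt (ofNat (List Code) (v a)) (s a) x) ?_ (co_aN hax)
    have h1 : Computable (fun q : α × ℕ => ofNat (List Code) (v q.1)) :=
      (Computable.ofNat (List Code)).comp (hv.comp Computable.fst)
    exact cp_comp (p := fun q : List Code × ℕ × ℕ => presSt q.1 q.2.1 q.2.2)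
      (f := fun q : α × ℕ => (ofNat (List Code) (v q.1), s q.1, q.2)) hPS.2.2.1
      (h1.pair ((hs.comp Computable.fst).pair Computable.snd))

theorem pf_PRO (hORC : TARGET_ORC) (hPS : TARGET_PS) : TARGET_PRO := by
  classical
  intro A hA hcomp
  obtain ⟨E, hE⟩ := exists_enum hA
  have hred : Nat.RecursiveIn {chi A} (chi K) := RecursiveIn.iff_nat.1 hcomp.2
  obtain ⟨G, hG, hGm⟩ := hORC A (chi K) hred
  obtain ⟨c, hc⟩ := re_code hG
  -- the fixed point
  let f : Code → ℕ →. ℕ := fun r v => Nat.rfind fun m =>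
    Part.some (decide (Cond c E r v m.unpair.1 m.unpair.2))
  have hf : Partrec₂ f := by
    refine Partrec.rfind (p := fun (q : Code × ℕ) (m : ℕ) =>
      Part.some (decide (Cond c E q.1 q.2 m.unpair.1 m.unpair.2))) ?_
    have h1 : ComputablePred (fun q : (Code × ℕ) × ℕ =>
        Cond c E q.1.1 q.1.2 q.2.unpair.1 q.2.unpair.2) :=
      cp_Cond hPS c hE.comp (Computable.fst.comp Computable.fst)
        (Computable.snd.comp Computable.fst) (co_unpair1 Computable.snd)
        (co_unpair2 Computable.snd)
    have h2 : Computable (fun q : (Code × ℕ) × ℕ =>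
        decide (Cond c E q.1.1 q.1.2 q.2.unpair.1 q.2.unpair.2)) := by
      refine (cp_dec h1).of_eq ?_
      intro q
      simp
    exact h2.partrec
  obtain ⟨r, hr⟩ := fixed_point₂ hf
  have hWr : ∀ v, v ∈ W r ↔ ∃ s ax, Cond c E r v s ax := by
    intro v
    rw [mem_W_iff, hr]
    change (Nat.rfind fun m =>
      Part.some (decide (Cond c E r v m.unpair.1 m.unpair.2))).Dom ↔ _
    rw [Nat.rfind_dom]
    constructor
    · rintro ⟨m, hm, _⟩
      exact ⟨m.unpair.1, m.unpair.2, by simpa using hm⟩
    · rintro ⟨s, ax, h⟩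
      exact ⟨Nat.pair s ax, by simpa using h, fun _ => trivial⟩
  -- every condition produces an element of `A`
  have hkey : ∀ v s ax, Cond c E r v s ax → ∃ x ∈ aN ax, x ∈ A := by
    intro v s ax h
    by_contra hcon
    push Not at hcon
    have h1 : (0 : ℕ) ∈ chi K (qq r v) := by
      rw [hGm]
      refine ⟨aP ax, aN ax, ?_, ?_, hcon⟩
      · exact (hc (qq r v, 0, aP ax, aN ax)).2 ⟨s, h.2.2.1⟩
      · intro x hx
        exact (hE.mem x).2 ⟨s, h.2.2.2.1 x hx⟩
    have h2 : qq r v ∈ K := (qq_K r v).2 ((hWr v).2 ⟨s, ax, h⟩)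
    unfold chi at h1
    rw [Part.mem_some_iff, if_pos h2] at h1
    exact absurd h1 (by norm_num)
  -- the function `p`
  let Q : ℕ → ℕ → Prop := fun s t => s ≤ t ∧ ∀ v < s + 1, ∀ s' < s + 1, ∀ ax < s + 1,
    Cond c E r v s' ax → ∃ x ∈ aN ax, x ∈ E t
  have hQex : ∀ s, ∃ t, Q s t := by
    intro s
    have hev : ∀ᶠ t in atTop, Q s t := by
      refine (eventually_ge_atTop s).and ?_
      have h1 : ∀ᶠ t in atTop, ∀ v ∈ Finset.range (s + 1), ∀ s' ∈ Finset.range (s + 1),
          ∀ ax ∈ Finset.range (s + 1), Cond c E r v s' ax → ∃ x ∈ aN ax, x ∈ E t := by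
        rw [eventually_all_finset]
        intro v _
        rw [eventually_all_finset]
        intro s' _
        rw [eventually_all_finset]
        intro ax _
        by_cases hcd : Cond c E r v s' ax
        · obtain ⟨x, hx, hxA⟩ := hkey v s' ax hcd
          obtain ⟨t0, ht0⟩ := (hE.mem x).1 hxA
          filter_upwards [eventually_ge_atTop t0] with t ht _
          exact ⟨x, hx, hE.mono _ _ _ ht ht0⟩
        · exact Eventually.of_forall fun t h => absurd h hcd
      filter_upwards [h1] with t ht v hv s' hs' ax hax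
      exact ht v (Finset.mem_range.2 hv) s' (Finset.mem_range.2 hs') ax (Finset.mem_range.2 hax)
    exact hev.exists
  have hQc : ComputablePred (fun q : ℕ × ℕ => Q q.1 q.2) := by
    refine cp_and (cp_le Computable.fst Computable.snd) ?_
    refine cp_forall_lt (p := fun (q : ℕ × ℕ) v => ∀ s' < q.1 + 1, ∀ ax < q.1 + 1,
      Cond c E r v s' ax → ∃ x ∈ aN ax, x ∈ E q.2) ?_ (Computable.succ.comp Computable.fst)
    refine cp_forall_lt (p := fun (q : (ℕ × ℕ) × ℕ) s' => ∀ ax < q.1.1 + 1,
      Cond c E r q.2 s' ax → ∃ x ∈ aN ax, x ∈ E q.1.2) ?_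
      (Computable.succ.comp (Computable.fst.comp Computable.fst))
    refine cp_forall_lt (p := fun (q : ((ℕ × ℕ) × ℕ) × ℕ) ax =>
      Cond c E r q.1.2 q.2 ax → ∃ x ∈ aN ax, x ∈ E q.1.1.2) ?_
      (Computable.succ.comp (Computable.fst.comp (Computable.fst.comp Computable.fst)))
    refine cp_imp ?_ ?_
    · exact cp_Cond hPS c hE.comp (Computable.const r)
        (Computable.snd.comp (Computable.fst.comp Computable.fst))
        (Computable.snd.comp Computable.fst) Computable.snd
    · have h1 : ComputablePred (fun q : (((ℕ × ℕ) × ℕ) × ℕ) × ℕ =>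
          ∀ x ∈ aN q.2, ¬ x ∈ E q.1.1.1.2) := by
        refine cp_forall_mem (R := fun (q : (((ℕ × ℕ) × ℕ) × ℕ) × ℕ) x =>
          ¬ x ∈ E q.1.1.1.2) ?_ (co_aN Computable.snd)
        refine cp_not (cp_mem (hE.comp.comp ?_) Computable.snd)
        exact Computable.snd.comp (Computable.fst.comp (Computable.fst.comp
          (Computable.fst.comp Computable.fst)))
      refine (cp_not h1).of_eq ?_
      intro q
      push Not
      rfl
  let p : ℕ → ℕ := fun s => Nat.find (hQex s)
  have hpc : Computable p := co_find (P := Q) hQc hQex _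
  have hps : ∀ s, Q s (p s) := fun s => Nat.find_spec (hQex s)
  refine ⟨E, hE, p, hpc, ?_, ?_⟩
  · intro s1 s2 h12
    apply Nat.find_min' (hQex s1)
    have h := hps s2
    exact ⟨le_trans h12 h.1, fun v hv s' hs' ax hax =>
      h.2 v (by omega) s' (by omega) ax (by omega)⟩
  · intro l _ hl
    by_cases hv : encode l ∈ W r
    · obtain ⟨s, ax, hcd⟩ := (hWr _).1 hv
      obtain ⟨x, hx, hxE⟩ := (hps s).2 (encode l) (Nat.lt_succ_of_le hcd.2.1) s
        (Nat.lt_succ_self s) ax (Nat.lt_succ_of_le hcd.1) hcd
      refine ⟨x, s, ?_, hxE⟩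
      have := hcd.2.2.2.2.2 x hx
      rwa [ofNat_encode] at this
    · exfalso
      have hq : qq r (encode l) ∉ K := fun h => hv ((qq_K _ _).1 h)
      have h0 : (0 : ℕ) ∈ chi K (qq r (encode l)) := by
        unfold chi
        rw [Part.mem_some_iff, if_neg hq]
      obtain ⟨P, N, hGP, hP, hN⟩ := (hGm _ _).1 h0
      obtain ⟨s0, hs0⟩ := (hc (qq r (encode l), 0, P, N)).1 hGP
      set ax : ℕ := Nat.pair (encode P) (encode N) with hax
      have haP : aP ax = P := by
        unfold aP
        rw [hax, Nat.unpair_pair, ofNat_encode]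
      have haN : aN ax = N := by
        unfold aN
        rw [hax, Nat.unpair_pair, ofNat_encode]
      have hev : ∀ᶠ s in atTop, Cond c E r (encode l) s ax := by
        unfold Cond
        rw [haP, haN, ofNat_encode]
        refine (eventually_ge_atTop ax).and ((eventually_ge_atTop (encode l)).and
          (Eventually.and ?_ (Eventually.and ?_ (Eventually.and ?_ ?_))))
        · filter_upwards [eventually_ge_atTop s0] with s hs
          exact wst_mono hs hs0
        · have h1 : ∀ᶠ s in atTop, ∀ x ∈ P.toFinset, x ∈ E s := by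
            rw [eventually_all_finset]
            intro x hx
            obtain ⟨t0, ht0⟩ := (hE.mem x).1 (hP x (List.mem_toFinset.1 hx))
            filter_upwards [eventually_ge_atTop t0] with t ht
            exact hE.mono _ _ _ ht ht0
          filter_upwards [h1] with s hs x hx
          exact hs x (List.mem_toFinset.2 hx)
        · exact Eventually.of_forall fun s x hx hxE => hN x hx ((hE.mem x).2 ⟨s, hxE⟩)
        · have h1 : ∀ᶠ s in atTop, ∀ x ∈ N.toFinset, presSt l s x := by
            rw [eventually_all_finset]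
            intro x hx
            have hx' : x ∈ presSet l := by
              rw [hl]
              exact hN x (List.mem_toFinset.1 hx)
            obtain ⟨s1, hs1⟩ := hPS.2.2.2 l x
            filter_upwards [eventually_ge_atTop s1] with t ht
            exact (hs1 t ht).2 hx'
          filter_upwards [h1] with s hs x hx
          exact hs x (List.mem_toFinset.2 hx)
      obtain ⟨s, hs⟩ := hev.exists
      exact hv ((hWr _).2 ⟨s, ax, hs⟩)

end Pool.Agent.H36.VT
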