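import Mathlib
import Pool.Agent.H46.VT.Defs
import Pool.Agent.H46.VT.Tools
import Pool.Agent.H46.VT.Red

/-!
# WA: almost all elements of `C - A` are in `T` or frozen
-/

namespace Pool.Agent.H36.VT.WAfile

open _root_.VT Pool.Agent.H46.VT
open Nat.Partrec (Code)
open Nat.Partrec.Code Encodable Denumerable

lemma ptr_ne {l : ℕ} (h : l ≠ 0) : l = Nat.pair (lm l) (li l) + 1 := by
  unfold lm li
  rw [Nat.pair_unpair]
  omega

theorem pf_WA (hRA : TARGET_RA) (hLF : TARGET_LF) (hFE : TARGET_FE) (hPI : TARGET_PI)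
    (hSP : TARGET_SP) : TARGET_WA := by
  classical
  intro ph hr k hk hInf
  obtain ⟨-, -, -, -, -, -, r7, r8, r9, r10, -, -, -⟩ := hRA ph hr
  obtain ⟨-, l2, l3, -⟩ := hLF ph hr
  have hfin : ∀ k' : ℕ, {x | ¬ Inf ph k' ∧ k' < LX x ∧ gX x k' ≠ tv ph k' ∧
      ∃ s, ph s x ≠ (0, LX x + 4)}.Finite := by
    intro k'
    by_cases h : Inf ph k'
    · refine Set.Finite.subset Set.finite_empty ?_
      rintro x ⟨h1, _⟩
      exact absurd h h1
    · refine Set.Finite.subset (hFE ph hr k' h) ?_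
      rintro x ⟨_, h1⟩
      exact h1
  refine Set.Finite.subset (Set.Finite.biUnion (Set.finite_Iic k) fun k' _ => hfin k') ?_
  rintro x ⟨⟨s0, hC⟩, hA, hT, hF⟩
  by_contra hex
  simp only [Set.mem_iUnion, not_exists] at hex
  have hA' : ∀ t, ¬ Ain ph (rl k) t x := fun t h => hA ⟨t, h⟩
  have hF' : ∀ t, ¬ Frz ph t x := fun t h => hF ⟨t, h⟩
  have hT' : ∀ t, ¬ Wst (rt k) t x := fun t h => hT ⟨t, h⟩
  have hmL : mX x ≤ LX x := by unfold LX; omega
  have hmoved : ph s0 x ≠ (0, LX x + 4) := by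
    intro h0
    unfold Cin at hC
    rw [h0] at hC
    simp only at hC
    omega
  have hlen : (wX x).length = LX x := (r7 s0 x hmoved).1
  -- true guesses about finitary requirements
  have htrue : ∀ k' ≤ k, k' < LX x → gX x k' ≠ tv ph k' → Inf ph k' := by
    intro k' hk' hkL hne
    by_contra hI
    exact hex k' (Set.mem_Iic.2 hk') ⟨hI, hkL, hne, s0, hmoved⟩
  -- a wrong guess stops the pointer above it
  have hwrong : ∀ k0 ≤ k, k0 < LX x → gX x k0 ≠ tv ph k0 →
      ∃ t1, ∀ t, t1 ≤ t → rr x (ph t x).2 ≤ k0 := by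
    intro k0 hk0 hkL hne
    have hI := htrue k0 hk0 hkL hne
    have htv : tv ph k0 = 0 := (l2 k0).2 hI
    have hg0 : gX x k0 ≠ 0 := by rw [htv] at hne; exact hne
    obtain ⟨t1, ht1⟩ := hI (gX x k0 - 1)
    refine ⟨t1, fun t ht => ?_⟩
    by_contra hcon
    push Not at hcon
    exact hF' t ⟨k0, hkL, hcon, hg0, r10 _ _ _ _ _ ht le_rfl ht1⟩
  -- the final state
  have hfinal : ∃ i, ∀ t, s0 ≤ t → (ph t x).1 = i ∧ (ph t x).2 ≠ 0 ∧ (ph t x).2 ≤ LX x + 3 ∧
      (rl k = 0 → (ph t x).2 ≤ mX x + 1) ∧ (rl k ≠ 0 → mX x = lm (rl k) ∧ i = li (rl k)) := by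
    by_cases hl : rl k = 0
    · have hC' : (ph s0 x).2 ≤ mX x + 1 := by
        rcases hC with ⟨_, h⟩ | ⟨h, _⟩
        · exact h
        · exact absurd hl h
      refine ⟨(ph s0 x).1, fun t ht => ?_⟩
      have h9 := r9 s0 t x ht hC'
      refine ⟨h9.1, ?_, by omega, fun _ => by omega, fun h => absurd hl h⟩
      intro h0
      exact hA' t (Or.inl ⟨hl, h0⟩)
    · have hC' : mX x = lm (rl k) ∧ (li (rl k) < (ph s0 x).1 ∨
          ((ph s0 x).1 = li (rl k) ∧ (ph s0 x).2 ≤ LX x + 3) ∨ (ph s0 x).2 = 0) := by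
        rcases hC with ⟨h, _⟩ | ⟨_, h⟩
        · exact absurd h hl
        · exact h
      have hnA : ∀ t, ¬ (li (rl k) < (ph t x).1 ∨ (ph t x).2 = 0) := fun t h =>
        hA' t (Or.inr ⟨hl, hC'.1, h⟩)
      have h0 := hnA s0
      have hs0 : (ph s0 x).1 = li (rl k) ∧ (ph s0 x).2 ≤ LX x + 3 := by
        rcases hC'.2 with h | h | h
        · exact absurd (Or.inl h) h0
        · exact h
        · exact absurd (Or.inr h) h0
      refine ⟨li (rl k), fun t ht => ?_⟩
      have h8 := r8 s0 t x ht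
      have ht' := hnA t
      have hlev : (ph t x).1 = li (rl k) := by
        have := h8.1
        omega
      refine ⟨hlev, fun h => ht' (Or.inr h), ?_, fun h => absurd h hl, fun _ => ⟨hC'.1, rfl⟩⟩
      have := h8.2 (by omega)
      omega
  obtain ⟨i, hi⟩ := hfinal
  -- no progress is possible
  have hno : ∀ t, s0 ≤ t → ¬ (∀ k' < LX x, k' < rr x (ph t x).2 → gX x k' = tv ph k') := by
    intro t ht htr
    obtain ⟨t', htt', h⟩ := hPI ph hr x t hlen (hi t ht).2.2.1 htr
    have h1 := hi t ht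
    have h2 := hi t' (by omega)
    rcases h with h | h
    · omega
    · exact h2.2.1 h
  by_cases hk0 : ∃ k', k' ≤ k ∧ k' < LX x ∧ gX x k' ≠ tv ph k'
  · have hs := Nat.find_spec hk0
    have hmin : ∀ k' < Nat.find hk0, k' < LX x → gX x k' = tv ph k' := by
      intro k' hk' hkL
      have := Nat.find_min hk0 hk'
      by_contra hne
      exact this ⟨by omega, hkL, hne⟩
    obtain ⟨t1, ht1⟩ := hwrong _ hs.1 hs.2.1 hs.2.2
    have h1 := ht1 (max s0 t1) (le_max_right _ _)
    exact hno (max s0 t1) (le_max_left _ _) fun k' hkL hk' => hmin k' (by omega) hkL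
  · push Not at hk0
    have h0 := hi s0 le_rfl
    by_cases hl : rl k = 0
    · by_cases hm : k < mX x
      · have hg : gX x k = 0 := by
          rw [hk0 k le_rfl (by omega)]
          exact (l2 k).2 hInf
        exact hT' s0 ((hSP ph hr s0 x).2.2.2 (h0.2.2.2.1 hl) k hm hl hg)
      · refine hno s0 le_rfl fun k' hkL hk' => hk0 k' ?_ hkL
        have h1 := h0.2.2.2.1 hl
        unfold rr at hk'
        split_ifs at hk' <;> omega
    · by_cases hm : k < LX x
      · have hg : gX x k = 0 := by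
          rw [hk0 k le_rfl hm]
          exact (l2 k).2 hInf
        have hmk : mX x ≤ k := by
          rw [(h0.2.2.2.2 hl).1]
          exact hk hl
        have hcur : rl k = cur x (ph s0 x).1 k := by
          unfold cur
          rw [if_neg (by omega), h0.1, (h0.2.2.2.2 hl).1, (h0.2.2.2.2 hl).2]
          exact ptr_ne hl
        exact hT' s0 ((hSP ph hr s0 x).2.2.1 h0.2.2.1 k hm hmk hcur hg)
      · exact hno s0 le_rfl fun k' hkL _ => hk0 k' (by omega) hkL

end Pool.Agent.H36.VT.WAfile
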